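import Pool.Agent.SC24.Fin3

/-!
MP_9178e4_nt: the congruences modulo `p^2` and modulo `p` for the truncated sums
`S(p) = sum_{k<p} binom(-1/3,k) binom(-1/6,k) / 2^k` and
`T(p) = sum_{k<p} binom(-2/3,k) binom(-5/6,k) / 2^k`,
for every prime `p > 3` (full statement).
-/

namespace Pool.Agent.Results.MP_9178e4_nt.SunCong24

open Finset

/-- the generalized binomial coefficient `a (a-1) ... (a-k+1) / k!` -/
def gbin (a : ℚ) (k : ℕ) : ℚ := (∏ i ∈ range k, (a - i)) / (k.factorial : ℚ)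

/-- `S(p)` -/
def S (p : ℕ) : ℚ := ∑ k ∈ range p, gbin (-1 / 3) k * gbin (-1 / 6) k / 2 ^ k

/-- `T(p)` -/
def T (p : ℕ) : ℚ := ∑ k ∈ range p, gbin (-2 / 3) k * gbin (-5 / 6) k / 2 ^ k

/-- `eps_p = (2/p) 2^(((p/3)-1)/2)`; the exponent is the integer `0` or `-1` -/
def eps (p : ℕ) [Fact p.Prime] : ℚ := (legendreSym p 2 : ℚ) * (2 : ℚ) ^ ((legendreSym 3 (p : ℤ) - 1) / 2)

/-- `x ≡ y (mod p^m)` for rationals: `x - y = p^m a / b` with integers `a`, `b`, `p ∤ b` -/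
def Cong (p m : ℕ) (x y : ℚ) : Prop :=
  ∃ a b : ℤ, ¬ (p : ℤ) ∣ b ∧ (x - y) * b = (p : ℚ) ^ m * a

open SC24

lemma gbin_eq (a : ℚ) (k : ℕ) : gbin (-a) k = (-1) ^ k * poch a k / (k.factorial : ℚ) := by
  unfold gbin poch
  congr 1
  rw [show ((-1 : ℚ)) ^ k = ∏ _i ∈ range k, (-1 : ℚ) by simp, ← Finset.prod_mul_distrib]
  apply Finset.prod_congr rfl
  intro i _; ring

lemma term_eq (a b : ℚ) (k : ℕ) : gbin (-a) k * gbin (-b) k / 2 ^ k = tm a b 1 k := by
  rw [gbin_eq, gbin_eq]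
  unfold tm
  rw [poch_one']
  have h1 : ((-1 : ℚ) ^ k) * (-1) ^ k = 1 := by rw [← mul_pow]; simp
  have h3 : (k.factorial : ℚ) ≠ 0 := by positivity
  rw [one_div, inv_pow]
  field_simp
  linear_combination (poch a k * poch b k) * h1

section
variable {p : ℕ} [hp : Fact p.Prime]

lemma S_red (h3 : 3 < p) : Red p (p ^ (2:ℕ)) (S p) (Sr p) := by
  unfold S Sr hs
  apply Red.sum
  intro k hk
  rw [show (-1 / 3 : ℚ) = -(1 / 3) by norm_num, show (-1 / 6 : ℚ) = -(1 / 6) by norm_num, term_eq]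
  apply red_tm (by omega) _ _ _ (by unfold Adm; simp) (mem_range.mp hk)
  · refine ⟨1, 3, ?_, by norm_num, ?_⟩
    · intro h; have := Int.le_of_dvd (by norm_num) h; omega
    · push_cast; linear_combination hww (p := p) h3
  · refine ⟨1, 6, ?_, by norm_num, ?_⟩
    · exact_mod_cast not_dvd_23 h3 (n := 6) 1 1 (by norm_num)
    · push_cast; linear_combination hww (p := p) h3
  · exact Red.one

lemma T_red (h3 : 3 < p) : Red p (p ^ (2:ℕ)) (T p) (Tr p) := by
  unfold T Tr hs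
  apply Red.sum
  intro k hk
  rw [show (-2 / 3 : ℚ) = -(2 / 3) by norm_num, show (-5 / 6 : ℚ) = -(5 / 6) by norm_num, term_eq]
  apply red_tm (by omega) _ _ _ (by unfold Adm; simp) (mem_range.mp hk)
  · refine ⟨2, 3, ?_, by norm_num, ?_⟩
    · intro h; have := Int.le_of_dvd (by norm_num) h; omega
    · push_cast; linear_combination 2 * hww (p := p) h3
  · refine ⟨5, 6, ?_, by norm_num, ?_⟩
    · exact_mod_cast not_dvd_23 h3 (n := 6) 1 1 (by norm_num)
    · push_cast; linear_combination 5 * hww (p := p) h3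
  · exact Red.one

lemma leg2 (h3 : 3 < p) : legendreSym p 2 = if p % 8 = 1 ∨ p % 8 = 7 then 1 else -1 := by
  rw [legendreSym.at_two (by omega), ZMod.χ₈_nat_eq_if_mod_eight]
  have : p % 2 ≠ 0 := by
    have := hp.out.eq_two_or_odd; omega
  rw [if_neg this]

lemma leg3 (n : ℕ) : legendreSym 3 (n : ℤ) = if n % 3 = 1 then 1 else if n % 3 = 2 then -1 else 0 := by
  rw [legendre_three]
  unfold chi3
  have h : n % 3 = 0 ∨ n % 3 = 1 ∨ n % 3 = 2 := by omega
  rcases h with h | h | h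
  · rw [if_neg (by omega), if_neg (by omega), if_neg (by omega), if_neg (by omega)]
  · rw [if_pos (by omega), if_pos h]
  · rw [if_neg (by omega), if_pos (by omega), if_neg (by omega), if_pos h]

lemma eps_A (h3 : 3 < p) (hc : p % 24 = 1 ∨ p % 24 = 7) : eps p = 1 := by
  unfold eps
  rw [leg2 h3, leg3, if_pos (by omega), if_pos (by omega)]
  norm_num

lemma eps_B (h3 : 3 < p) (hc : p % 24 = 5 ∨ p % 24 = 11) : eps p = -1 / 2 := by
  unfold eps
  rw [leg2 h3, leg3, if_neg (by omega), if_neg (by omega), if_pos (by omega)]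
  norm_num

lemma eps_C (h3 : 3 < p) (hc : p % 24 = 13 ∨ p % 24 = 19) : eps p = -1 := by
  unfold eps
  rw [leg2 h3, leg3, if_neg (by omega), if_pos (by omega)]
  norm_num

lemma cong_of_red {m : ℕ} {x y : ℚ} {r s : ZMod (p ^ m)} (hx : Red p (p ^ m) x r) (hy : Red p (p ^ m) y s)
    (h : r = s) : Cong p m x y := by
  subst h
  exact Red.pcong rfl hx hy

lemma coprime_pow {m : ℕ} (hm : m = 1 ∨ m = 2) : p ^ m ∣ p ^ 2 := by
  rcases hm with rfl | rfl
  · exact pow_dvd_pow p (by norm_num)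
  · exact dvd_rfl

/-- reduction of the right-hand sides -/
lemma rhs_red (h3 : 3 < p) {x : ℤ} (c : ℕ) (hc : IsUnit ((c : ZMod (p ^ (2:ℕ))) * x)) :
    Red p (p ^ (2:ℕ)) ((legendreSym 3 x : ℚ) * (2 * x - p / (c * x)))
      ((chi3 x : ZMod (p ^ (2:ℕ))) * (2 * x - P2 p * ((c : ZMod (p ^ (2:ℕ))) * x)⁻¹)) := by
  rw [legendre_three]
  apply Red.mul (Red.int _)
  apply Red.sub
  · have := (Red.nat (p := p) (M := p ^ (2:ℕ)) 2).mul (Red.int x)
    exact_mod_cast this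
  · exact Red.div dvd_rfl (dvd_pow_self p two_ne_zero) (Red.nat p) ((Red.nat c).mul (Red.int x)) hc

lemma Cong.of_red1 (h3 : 3 < p) {x y : ℚ} {r s : ZMod (p ^ (2:ℕ))} (hx : Red p (p ^ (2:ℕ)) x r)
    (hy : Red p (p ^ (2:ℕ)) y s) (h : red p r = red p s) : Cong p 1 x y := by
  have h1 := hx.map (M' := p) (dvd_pow_self p two_ne_zero)
  have h2 := hy.map (M' := p) (dvd_pow_self p two_ne_zero)
  have h4 : ZMod.castHom (dvd_pow_self p two_ne_zero) (ZMod p) r =
    ZMod.castHom (dvd_pow_self p two_ne_zero) (ZMod p) s := h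
  rw [h4] at h1
  exact Red.pcong (pow_one p).symm h1 h2

/-- classes 1 and 7 -/
lemma main_A (h3 : 3 < p) (hc : p % 24 = 1 ∨ p % 24 = 7) {x y : ℤ} (hxy : (p : ℤ) = x ^ 2 + 6 * y ^ 2) :
    Cong p 2 (S p) (eps p * T p) ∧
      Cong p 2 (eps p * T p) ((legendreSym 3 x : ℚ) * (2 * x - p / (2 * x))) := by
  obtain ⟨e1, e2, e3⟩ := RA h3 hxy
  have hT : Red p (p ^ (2:ℕ)) (eps p * T p) (Tr p) := by
    rw [eps_A h3 hc, one_mul]; exact T_red h3
  refine ⟨Red.pcong rfl (S_red h3) (e1 ▸ hT), ?_⟩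
  have hR := rhs_red h3 (x := x) 2 (by exact_mod_cast e2)
  push_cast at hR
  rw [← e3, e1] at hR
  exact Red.pcong rfl hT hR

/-- classes 5 and 11, `p > 5` -/
lemma main_B (h5 : 5 < p) (hc : p % 24 = 5 ∨ p % 24 = 11) {x y : ℤ}
    (hxy : (p : ℤ) = 2 * x ^ 2 + 3 * y ^ 2) :
    Cong p 2 (S p) (eps p * T p) ∧
      Cong p 2 (eps p * T p) ((legendreSym 3 x : ℚ) * (2 * x - p / (4 * x))) := by
  have h3 : 3 < p := by omega
  obtain ⟨e1, e2, e3⟩ := RB h5 hxy
  have hT : Red p (p ^ (2:ℕ)) (eps p * T p) (Sr p) := by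
    rw [eps_B h3 hc]
    have h6 := ((red_half h3).neg).mul (T_red h3)
    refine h6.congr (by ring) ?_
    rw [← e1]
    linear_combination (-Sr p) * hww (p := p) h3
  refine ⟨Red.pcong rfl (S_red h3) hT, ?_⟩
  have hR := rhs_red h3 (x := x) 4 (by exact_mod_cast e2)
  push_cast at hR
  rw [← e3] at hR
  exact Red.pcong rfl hT hR

/-- classes 13 and 19 -/
lemma main_C (h3 : 3 < p) (hc : p % 24 = 13 ∨ p % 24 = 19) :
    Cong p 1 (S p) (eps p * T p) ∧ Cong p 1 (eps p * T p) 0 := by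
  have hS := red_S_zero (p := p) hc
  have hST := red_S_T_1 (p := p) h3 (by omega)
  have hT0 : red p (Tr p) = 0 := by
    rw [hS] at hST
    have h2 : ((2 : ZMod p)⁻¹) ^ ((p - 1) / 2) ≠ 0 := pow_ne_zero _ (inv_ne_zero (two_neF (by omega)))
    rcases mul_eq_zero.mp hST.symm with h | h
    · exact absurd h h2
    · exact h
  have hT : Red p (p ^ (2:ℕ)) (eps p * T p) (-Tr p) := by
    rw [eps_C h3 hc]
    exact ((T_red h3).neg).congr (by ring) rfl
  refine ⟨Cong.of_red1 h3 (S_red h3) hT ?_, Cong.of_red1 h3 hT Red.zero ?_⟩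
  · rw [hS, map_neg, hT0, neg_zero]
  · rw [map_neg, hT0, neg_zero, map_zero]

/-- the last congruence, `p > 5` -/
lemma main_D (h5 : 5 < p) {x y : ℤ} (hxy : (p : ℤ) = 2 * x ^ 2 + 3 * y ^ 2) :
    Cong p 1 ((x : ℚ) * legendreSym 3 x)
      (-(1 / 4) * ∑ k ∈ range ((p - 5) / 6 + 1),
        (((p - 2) / 3).choose k : ℚ) * (((p - 5) / 6).choose k : ℚ) / 2 ^ k) := by
  have h3 : 3 < p := by omega
  obtain ⟨hc, hx3, hpx, hxp⟩ := class_B hp.out h3 hxy
  obtain ⟨e1, e2, e3⟩ := RB h5 hxy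
  have hr2 : red p (P2 p) = 0 := red_P
  have hS : red p (Sr p) = 2 * x * chi3 x := by
    rw [e3, map_mul, map_sub, map_mul, map_mul, map_intCast, map_intCast, map_ofNat, hr2]
    ring
  have hTr : red p (Tr p) = -(4 * x * chi3 x) := by
    rw [← e1, map_neg, map_mul, map_ofNat, hS]; ring
  have hw := red_ww (p := p) h3
  have hbin : red p (Tr p) = binSum p ((p - 2) / 3) ((p - 5) / 6) (2⁻¹) := by
    unfold Tr
    apply red_hs (by omega)
    · rw [map_mul, map_ofNat]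
      have h6 : (3 : ZMod p) * (((p - 2) / 3 : ℕ) : ZMod p) + 2 = 0 := by
        have e : 3 * ((p - 2) / 3) + 2 = p := by omega
        have := congrArg (Nat.cast : ℕ → ZMod p) e
        push_cast at this
        rw [ZMod.natCast_self] at this
        exact_mod_cast this
      linear_combination (8 * red p (ww p)) * h6 - (((p - 2) / 3 : ℕ) : ZMod p) * hw
    · rw [map_mul, map_ofNat]
      have h6 : (6 : ZMod p) * (((p - 5) / 6 : ℕ) : ZMod p) + 5 = 0 := by
        have e : 6 * ((p - 5) / 6) + 5 = p := by omega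
        have := congrArg (Nat.cast : ℕ → ZMod p) e
        push_cast at this
        rw [ZMod.natCast_self] at this
        exact_mod_cast this
      linear_combination (4 * red p (ww p)) * h6 - (((p - 5) / 6 : ℕ) : ZMod p) * hw
  have hsum : binSum p ((p - 2) / 3) ((p - 5) / 6) (2⁻¹) = ∑ k ∈ range ((p - 5) / 6 + 1),
      (((p - 2) / 3).choose k : ZMod p) * (((p - 5) / 6).choose k : ZMod p) * (2⁻¹) ^ k := by
    unfold binSum
    symm
    apply Finset.sum_subset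
    · intro k hk; rw [mem_range] at hk ⊢; omega
    · intro k _ hk'
      rw [mem_range, not_lt] at hk'
      rw [Nat.choose_eq_zero_of_lt (show (p - 5) / 6 < k by omega)]
      simp
  have h2u : IsUnit ((2 : ℕ) : ZMod p) := isUnit_nat p_dvd_sq (not_dvd_23 h3 1 0 (by norm_num))
  have hR : Red p p (∑ k ∈ range ((p - 5) / 6 + 1),
        (((p - 2) / 3).choose k : ℚ) * (((p - 5) / 6).choose k : ℚ) / 2 ^ k)
        (∑ k ∈ range ((p - 5) / 6 + 1),
      (((p - 2) / 3).choose k : ZMod p) * (((p - 5) / 6).choose k : ZMod p) * (2⁻¹) ^ k) := by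
    apply Red.sum
    intro k _
    have h7 := ((Red.nat (p := p) (M := p) (((p - 2) / 3).choose k)).mul
      (Red.nat (((p - 5) / 6).choose k))).mul ((Red.inv p_dvd_sq dvd_rfl (Red.nat (p := p) 2) h2u).pow k)
    refine h7.congr ?_ (by push_cast; rfl)
    push_cast
    rw [inv_pow]; rfl
  have h4u : IsUnit ((4 : ℕ) : ZMod p) := isUnit_nat p_dvd_sq (not_dvd_23 h3 2 0 (by norm_num))
  have hR4 := ((Red.inv p_dvd_sq dvd_rfl (Red.nat (p := p) 4) h4u).neg).mul hR
  have hL : Red p p ((x : ℚ) * legendreSym 3 x) (x * chi3 x) := by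
    rw [legendre_three]; exact (Red.int x).mul (Red.int _)
  have c4 : (4 : ZMod p) ≠ 0 := by exact_mod_cast h4u.ne_zero
  have hfin : (x : ZMod p) * chi3 x = -((4 : ℕ) : ZMod p)⁻¹ * ∑ k ∈ range ((p - 5) / 6 + 1),
      (((p - 2) / 3).choose k : ZMod p) * (((p - 5) / 6).choose k : ZMod p) * (2⁻¹) ^ k := by
    rw [← hsum, ← hbin, hTr]
    push_cast
    field_simp
  rw [hfin] at hL
  refine Red.pcong (pow_one p).symm hL (hR4.congr ?_ rfl)
  push_cast
  ring

end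

/-- `p = 5` -/
lemma five_rep {x y : ℤ} (h : ((5 : ℕ) : ℤ) = 2 * x ^ 2 + 3 * y ^ 2) : x = 1 ∨ x = -1 := by
  have h0 : (5 : ℤ) = 2 * x ^ 2 + 3 * y ^ 2 := by exact_mod_cast h
  have h1 : 2 * x ^ 2 ≤ 5 := by nlinarith [sq_nonneg y]
  have h2 : x ≤ 1 := by nlinarith
  have h3 : -1 ≤ x := by nlinarith
  have h4 : x ≠ 0 := by
    rintro rfl
    have h5 : (5 : ℤ) = 3 * y ^ 2 := by simpa using h
    omega
  omega

lemma leg_one : legendreSym 3 1 = 1 := by rw [legendre_three]; rfl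

lemma leg_neg_one : legendreSym 3 (-1) = -1 := by rw [legendre_three]; rfl

lemma S5 : S 5 = 125188739 / 120932352 := by
  norm_num [S, gbin, Finset.sum_range_succ, Finset.prod_range_succ, Nat.factorial]

lemma T5 : T 5 = 87553111 / 60466176 := by
  norm_num [T, gbin, Finset.sum_range_succ, Finset.prod_range_succ, Nat.factorial]

lemma five_B [Fact (Nat.Prime 5)] {x y : ℤ} (h : ((5 : ℕ) : ℤ) = 2 * x ^ 2 + 3 * y ^ 2) :
    Cong 5 2 (S 5) (eps 5 * T 5) ∧
      Cong 5 2 (eps 5 * T 5) ((legendreSym 3 x : ℚ) * (2 * x - (5 : ℕ) / (4 * x))) := by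
  rw [eps_B (by norm_num) (by norm_num), S5, T5]
  refine ⟨⟨1418279, 20155392, by norm_num, by norm_num⟩, ?_⟩
  rcases five_rep h with rfl | rfl
  · rw [leg_one]
    exact ⟨-7130095, 120932352, by norm_num, by norm_num⟩
  · rw [leg_neg_one]
    exact ⟨-7130095, 120932352, by norm_num, by norm_num⟩

lemma five_D {x y : ℤ} (h : ((5 : ℕ) : ℤ) = 2 * x ^ 2 + 3 * y ^ 2) :
    Cong 5 1 ((x : ℚ) * legendreSym 3 x)
      (-(1 / 4) * ∑ k ∈ range ((5 - 5) / 6 + 1),
        (((5 - 2) / 3).choose k : ℚ) * (((5 - 5) / 6).choose k : ℚ) / 2 ^ k) := by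
  rcases five_rep h with rfl | rfl
  · rw [leg_one]
    exact ⟨1, 4, by norm_num, by norm_num⟩
  · rw [leg_neg_one]
    exact ⟨1, 4, by norm_num, by norm_num⟩

/-- **Main theorem**: all the congruences of the problem, for every prime `p > 3`
(with the existence of the representations of `p` in the classes `1, 7` and `5, 11` mod `24`). -/
theorem result (p : ℕ) [Fact p.Prime] (hp : 3 < p) :
    ((p % 24 = 1 ∨ p % 24 = 7) →
      (∃ x y : ℤ, (p : ℤ) = x ^ 2 + 6 * y ^ 2) ∧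
      ∀ x y : ℤ, (p : ℤ) = x ^ 2 + 6 * y ^ 2 →
        Cong p 2 (S p) (eps p * T p) ∧
        Cong p 2 (eps p * T p) ((legendreSym 3 x : ℚ) * (2 * x - p / (2 * x)))) ∧
    ((p % 24 = 5 ∨ p % 24 = 11) →
      (∃ x y : ℤ, (p : ℤ) = 2 * x ^ 2 + 3 * y ^ 2) ∧
      ∀ x y : ℤ, (p : ℤ) = 2 * x ^ 2 + 3 * y ^ 2 →
        Cong p 2 (S p) (eps p * T p) ∧
        Cong p 2 (eps p * T p) ((legendreSym 3 x : ℚ) * (2 * x - p / (4 * x)))) ∧
    ((p % 24 = 13 ∨ p % 24 = 19) →
      Cong p 1 (S p) (eps p * T p) ∧ Cong p 1 (eps p * T p) 0) ∧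
    (∀ x y : ℤ, (p : ℤ) = 2 * x ^ 2 + 3 * y ^ 2 →
      Cong p 1 ((x : ℚ) * legendreSym 3 x)
        (-(1 / 4) * ∑ k ∈ range ((p - 5) / 6 + 1),
          (((p - 2) / 3).choose k : ℚ) * (((p - 5) / 6).choose k : ℚ) / 2 ^ k)) := by
  refine ⟨fun hc => ⟨exists_A hp hc, fun x y hxy => main_A hp hc hxy⟩,
    fun hc => ⟨exists_B hp hc, fun x y hxy => ?_⟩, fun hc => main_C hp hc, fun x y hxy => ?_⟩
  · by_cases h5 : p = 5
    · subst h5
      exact five_B hxy
    · exact main_B (by omega) hc hxy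
  · by_cases h5 : p = 5
    · subst h5
      exact five_D hxy
    · have := (class_B (Fact.out : p.Prime) hp hxy).1
      exact main_D (by omega) hxy

end Pool.Agent.Results.MP_9178e4_nt.SunCong24
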